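import Pool.Agent.N22.OC.Chs

/-!
# McKay bijections with degrees congruent up to sign modulo `p`: one Dirichlet character decides

Let `ψ` be a Dirichlet character modulo `p` and `S_ψ(G) = ∑_{χ ∈ Irr(G)} ψ(χ(1))`; only the characters
of degree prime to `p` contribute. If `ψ` has the kernel `{±1}` (such `ψ` exist), then the
Isaacs-Navarro conjecture holds for `p` and all finite groups if and only if
`S_ψ(G) - S_ψ(N_G(P)) = o(|G|)`. For example, for `p = 5` and the Legendre symbol `ψ` the sum `S_ψ(G)` is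
the number of irreducible characters of degree `≡ ±1` minus the number of those of degree `≡ ±2`.

Proof. For a prime `q ≠ p` and a group `K`,
`q S_ψ(K ≀ C_q) = ψ(q) (S_ψ(K)^q - S_{ψ^q}(K)) + q² S_{ψ^q}(K)`
by Clifford theory, and the normalizer of the Sylow subgroup `P^q` of `G ≀ C_q` is `N_G(P) ≀ C_q`. So, if
`S_ψ(G) = S_ψ(N_G(P))` for all `G`, then `(q² - ψ(q)) (S_{ψ^q}(G) - S_{ψ^q}(N_G(P))) = 0`, and `ψ^q` has
the same property. Hence all powers `ψ^j`, `j ≥ 1`, have it (also the trivial one), and the numbers of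
characters in all classes of degrees modulo the kernel of `ψ` are the same for `G` and `N_G(P)`. Finally
`S_ψ(G × C_m) = m S_ψ(G)`, so an error `o(|G|)` does not matter.
-/

set_option autoImplicit false

noncomputable section

namespace Pool.Agent.Results.MP_5ecade_al.OneCharacterDecides

open Pool.Agent.Helper884.IC (IsIrrChar)
open Pool.Agent.N84.IN (IrrP)
open Pool.Agent.N22.OC

variable {p : ℕ} [hp : Fact p.Prime]

/-- For all `G` in the class `X` of groups and all `P` there is a bijection between the irreducible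
characters of `G` and of `N_G(P)` of degree prime to `p` which preserves the degrees modulo `p` up to
sign. -/
def IsaacsNavarro (p : ℕ) (X : (G : Type) → [Group G] → Prop) : Prop :=
  ∀ (G : Type) [Group G] [Finite G] (P : Sylow p G), X G →
    ∃ f : IrrP p G → IrrP p (Subgroup.normalizer ((P : Subgroup G) : Set G)),
      Function.Bijective f ∧ Keeps p f

/-- For all `G` in `X` and all `P` there is a bijection `χ ↦ χ*` between the irreducible characters of
`G` and of `N_G(P)` of degree prime to `p` with `ψ(χ*(1)) = ψ(χ(1))`. -/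
def Bijections (X : (G : Type) → [Group G] → Prop) (ψ : DirichletCharacter ℂ p) : Prop :=
  ∀ (G : Type) [Group G] [Finite G] (P : Sylow p G), X G →
    HasBijChar ψ G (Subgroup.normalizer ((P : Subgroup G) : Set G))

/-- `S_ψ(G) = S_ψ(N_G(P))` for all `G` in `X` and all `P`. -/
def Equal (X : (G : Type) → [Group G] → Prop) (ψ : DirichletCharacter ℂ p) : Prop :=
  ∀ (G : Type) [Group G] [Finite G] (P : Sylow p G), X G →
    tw ψ G = tw ψ (Subgroup.normalizer ((P : Subgroup G) : Set G))

/-- `S_ψ(G) - S_ψ(N_G(P)) = o(|G|)` for the groups `G` in `X`. -/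
def Asymptotic (X : (G : Type) → [Group G] → Prop) (ψ : DirichletCharacter ℂ p) : Prop :=
  ∀ ε : ℝ, 0 < ε → ∃ C : ℕ, ∀ (G : Type) [Group G] [Finite G] (P : Sylow p G), X G →
    C ≤ Nat.card G →
    ‖tw ψ G - tw ψ (Subgroup.normalizer ((P : Subgroup G) : Set G))‖ ≤ ε * Nat.card G

/-- **The Isaacs-Navarro conjecture: one Dirichlet character decides.** Let `p` be a prime and let `X` be
a class of groups closed under wreath products `G ≀ C_q` and direct products `G × C_q`, `q ≠ p` prime.
(1) For each Dirichlet character `ψ` modulo `p` there are bijections between the irreducible characters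
of degree prime to `p` of `G` and `N_G(P)` which preserve the values of `ψ` at the degrees, for all
`G ∈ X`, if and only if `S_ψ(G) = S_ψ(N_G(P))` for all `G ∈ X`, if and only if
`S_ψ(G) - S_ψ(N_G(P)) = o(|G|)` for `G ∈ X`.
(2) If the kernel of `ψ` is `{±1}`, this is equivalent to the Isaacs-Navarro conjecture for `p` and the
groups in `X`. (3) Such `ψ` exist for every `p`. -/
theorem result (p : ℕ) [Fact p.Prime] :
    (∀ X : (G : Type) → [Group G] → Prop, ClosedCq p X → ∀ ψ : DirichletCharacter ℂ p,
      (Bijections X ψ ↔ Equal X ψ) ∧ (Equal X ψ ↔ Asymptotic X ψ) ∧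
      ((∀ x : ZMod p, ψ x = 1 ↔ x = 1 ∨ x = -1) → (IsaacsNavarro p X ↔ Asymptotic X ψ))) ∧
    ∃ ψ : DirichletCharacter ℂ p, ∀ x : ZMod p, ψ x = 1 ↔ x = 1 ∨ x = -1 := by
  refine ⟨fun X hX ψ => ?_, exists_ker_pm p⟩
  have h1 : Bijections X ψ ↔ Equal X ψ := (eqAll_iff hX ψ).symm
  have h2 : Equal X ψ ↔ Asymptotic X ψ := by
    refine ⟨fun h ε hε => ⟨0, fun G _ _ P hG _ => ?_⟩, fun h => eqAll_of_asym hX h⟩
    rw [h G P hG, sub_self, norm_zero]
    positivity
  refine ⟨h1, h2, fun hψ => ?_⟩
  rw [← h2, ← h1]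
  constructor
  · intro h G _ _ P hG
    obtain ⟨f, hf, hk⟩ := h G P hG
    exact ⟨f, hf, (keeps_of_ker hψ f).mpr hk⟩
  · intro h G _ _ P hG
    obtain ⟨f, hf, hk⟩ := h G P hG
    exact ⟨f, hf, (keeps_of_ker hψ f).mp hk⟩

end Pool.Agent.Results.MP_5ecade_al.OneCharacterDecides
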