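import Pool.Agent.N22.OC.Pm

/-!
# McKay bijections with degrees congruent up to sign modulo `p`: one class of degrees decides

Let `p` be a prime, let `k` be prime to `p` and let `M_k(G)` be the number of irreducible characters
of `G` with degree `≡ ± k` modulo `p`. The Isaacs-Navarro conjecture for `p` and all finite groups holds
if (and only if) `M_k(G) - M_k(N_G(P))` is `o(|G|)`, for one single `k`. The one-sided asymptotic
inequalities for one single `k` mean that there are injections (in place of bijections) with the
congruences of the Isaacs-Navarro conjecture, for all groups.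

Proof. Let `m ≥ 2` be prime to `p` and let `r = m s + 1 ≠ p` be a prime. The Frobenius group `F` of order
`r m` has `m` linear characters and `s` characters of degree `m`, and if `P ∈ Syl_p(G)`, then
`P × 1 ∈ Syl_p(G × F)` has the normalizer `N_G(P) × F`. So, for `D_k(G) = M_k(G) - M_k(N_G(P))`,
`D_k(G × F) = m D_k(G) + s D_{k/m}(G)`. For fixed `m` let `s → ∞`: if `D_k(G × F) ≤ ε |G| r m` for all
`ε > 0` and all large `s`, then `D_{k/m}(G) < 1`. Every class is of the form `k/m`.
-/

set_option autoImplicit false

noncomputable section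

namespace Pool.Agent.Results.MP_5ecade_al.OneClassDecides

open Pool.Agent.Helper884.IC (IsIrrChar)
open Pool.Agent.N84.IN (IrrP numCls)
open Pool.Agent.N22.OC

variable (p : ℕ) [hp : Fact p.Prime]

/-- There is a bijection between the irreducible characters of `G` and of `N` of degree prime to `p`
which preserves the degrees modulo `p` up to sign. -/
def HasBij (p : ℕ) (G N : Type) [Group G] [Group N] : Prop :=
  ∃ f : IrrP p G → IrrP p N, Function.Bijective f ∧ Keeps p f

/-- There is an injection of the irreducible characters of `G` of degree prime to `p` into those of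
`N` which preserves the degrees modulo `p` up to sign. -/
def HasInj (p : ℕ) (G N : Type) [Group G] [Group N] : Prop :=
  ∃ f : IrrP p G → IrrP p N, Function.Injective f ∧ Keeps p f

/-- The upper bound `M_k(G) ≤ M_k(N_G(P)) + o(|G|)`. -/
def Upper (p k : ℕ) : Prop :=
  ∀ ε : ℝ, 0 < ε → ∃ C : ℕ, ∀ (G : Type) [Group G] [Finite G] (P : Sylow p G), C ≤ Nat.card G →
    (numMod p k G : ℝ) ≤
      numMod p k (Subgroup.normalizer ((P : Subgroup G) : Set G)) + ε * Nat.card G

/-- The lower bound `M_k(N_G(P)) ≤ M_k(G) + o(|G|)`. -/
def Lower (p k : ℕ) : Prop :=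
  ∀ ε : ℝ, 0 < ε → ∃ C : ℕ, ∀ (G : Type) [Group G] [Finite G] (P : Sylow p G), C ≤ Nat.card G →
    (numMod p k (Subgroup.normalizer ((P : Subgroup G) : Set G)) : ℝ) ≤
      numMod p k G + ε * Nat.card G

variable {p}

theorem upper_small {k : ℕ} (hk : ¬ p ∣ k) (h : Upper p k) : Small p (pm p) (clk p hk) 1 := by
  intro ε hε
  obtain ⟨C, hC⟩ := h ε hε
  refine ⟨C, fun G _ _ P hG => ?_⟩
  have h1 := hC G P hG
  unfold Df
  rw [numCls_clk, numCls_clk]
  push_cast
  linarith

theorem lower_small {k : ℕ} (hk : ¬ p ∣ k) (h : Lower p k) : Small p (pm p) (clk p hk) (-1) := by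
  intro ε hε
  obtain ⟨C, hC⟩ := h ε hε
  refine ⟨C, fun G _ _ P hG => ?_⟩
  have h1 := hC G P hG
  unfold Df
  rw [numCls_clk, numCls_clk]
  push_cast
  linarith

theorem upper_iff {k : ℕ} (hk : ¬ p ∣ k) : Upper p k ↔
    ∀ (G : Type) [Group G] [Finite G] (P : Sylow p G),
      HasInj p G (Subgroup.normalizer ((P : Subgroup G) : Set G)) := by
  constructor
  · intro h G _ _ P
    refine exists_inj.mpr fun a => ?_
    have h1 := nonpos_of_small (upper_small hk h) a G P
    unfold Df at h1
    omega
  · intro h ε hε
    refine ⟨0, fun G _ _ P _ => ?_⟩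
    have h1 := exists_inj.mp (h G P) (clk p hk)
    rw [numCls_clk, numCls_clk] at h1
    have h2 : (numMod p k G : ℝ) ≤
        numMod p k (Subgroup.normalizer ((P : Subgroup G) : Set G)) := by exact_mod_cast h1
    have h3 : 0 ≤ ε * (Nat.card G : ℝ) := by positivity
    linarith

theorem lower_iff {k : ℕ} (hk : ¬ p ∣ k) : Lower p k ↔
    ∀ (G : Type) [Group G] [Finite G] (P : Sylow p G),
      HasInj p (Subgroup.normalizer ((P : Subgroup G) : Set G)) G := by
  constructor
  · intro h G _ _ P
    refine exists_inj.mpr fun a => ?_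
    have h1 := nonpos_of_small (lower_small hk h) a G P
    unfold Df at h1
    omega
  · intro h ε hε
    refine ⟨0, fun G _ _ P _ => ?_⟩
    have h1 := exists_inj.mp (h G P) (clk p hk)
    rw [numCls_clk, numCls_clk] at h1
    have h2 : (numMod p k (Subgroup.normalizer ((P : Subgroup G) : Set G)) : ℝ) ≤
        numMod p k G := by exact_mod_cast h1
    have h3 : 0 ≤ ε * (Nat.card G : ℝ) := by positivity
    linarith

/-- **The Isaacs-Navarro conjecture: one class of degrees decides, asymptotically.** Let `p` be a
prime and let `k` be prime to `p`. (1) The Isaacs-Navarro conjecture holds for `p` and all finite groups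
if and only if `M_k(G) - M_k(N_G(P)) = o(|G|)`, where `M_k` is the number of irreducible characters
of degree `≡ ± k` modulo `p`. (2) `M_k(G) ≤ M_k(N_G(P)) + o(|G|)` if and only if for all finite
groups `G` there is an injection of the irreducible characters of `G` of degree prime to `p` into
those of `N_G(P)` which preserves the degrees up to sign modulo `p`. (3) The same for injections in the
other direction. (4) If the McKay equality holds for `p` and all finite groups, then each of these
one-sided inequalities is equivalent to the Isaacs-Navarro conjecture for `p`. -/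
theorem result (p k : ℕ) [Fact p.Prime] (hk : ¬ p ∣ k) :
    ((∀ (G : Type) [Group G] [Finite G] (P : Sylow p G),
        HasBij p G (Subgroup.normalizer ((P : Subgroup G) : Set G))) ↔
      ∀ ε : ℝ, 0 < ε → ∃ C : ℕ, ∀ (G : Type) [Group G] [Finite G] (P : Sylow p G),
        C ≤ Nat.card G →
          |(numMod p k G : ℝ) - numMod p k (Subgroup.normalizer ((P : Subgroup G) : Set G))| ≤
            ε * Nat.card G) ∧
    (Upper p k ↔ ∀ (G : Type) [Group G] [Finite G] (P : Sylow p G),
      HasInj p G (Subgroup.normalizer ((P : Subgroup G) : Set G))) ∧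
    (Lower p k ↔ ∀ (G : Type) [Group G] [Finite G] (P : Sylow p G),
      HasInj p (Subgroup.normalizer ((P : Subgroup G) : Set G)) G) ∧
    ((∀ (G : Type) [Group G] [Finite G] (P : Sylow p G), Nat.card (IrrP p G) =
        Nat.card (IrrP p (Subgroup.normalizer ((P : Subgroup G) : Set G)))) →
      ((∀ (G : Type) [Group G] [Finite G] (P : Sylow p G),
          HasBij p G (Subgroup.normalizer ((P : Subgroup G) : Set G))) ↔ Upper p k) ∧
      ((∀ (G : Type) [Group G] [Finite G] (P : Sylow p G),
          HasBij p G (Subgroup.normalizer ((P : Subgroup G) : Set G))) ↔ Lower p k)) := by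
  refine ⟨⟨fun h => ?_, fun h => ?_⟩, upper_iff hk, lower_iff hk, fun h => ⟨?_, ?_⟩⟩
  · intro ε hε
    refine ⟨0, fun G _ _ P _ => ?_⟩
    have h1 := exists_bij.mp (h G P) (clk p hk)
    rw [numCls_clk, numCls_clk] at h1
    rw [h1, sub_self, abs_zero]
    positivity
  · intro G _ _ P
    refine exists_bij.mpr fun a => ?_
    have hu : Upper p k := by
      intro ε hε
      obtain ⟨C, hC⟩ := h ε hε
      refine ⟨C, fun G _ _ P hG => ?_⟩
      have := (abs_le.mp (hC G P hG)).2
      linarith
    have hl : Lower p k := by
      intro ε hε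
      obtain ⟨C, hC⟩ := h ε hε
      refine ⟨C, fun G _ _ P hG => ?_⟩
      have := (abs_le.mp (hC G P hG)).1
      linarith
    exact le_antisymm (exists_inj.mp ((upper_iff hk).mp hu G P) a)
      (exists_inj.mp ((lower_iff hk).mp hl G P) a)
  · rw [upper_iff hk]
    exact ⟨fun h1 G _ _ P => (bij_iff_inj (h G P)).mp (h1 G P),
      fun h1 G _ _ P => (bij_iff_inj (h G P)).mpr (h1 G P)⟩
  · rw [lower_iff hk]
    exact ⟨fun h1 G _ _ P => (bij_iff_inj' (h G P)).mp (h1 G P),
      fun h1 G _ _ P => (bij_iff_inj' (h G P)).mpr (h1 G P)⟩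

end Pool.Agent.Results.MP_5ecade_al.OneClassDecides
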