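import Pool.Agent.N22.OC.Pm

/-!
# McKay bijections with degrees congruent up to sign modulo `p`: one class modulo one prime decides

Let `p ≠ q` be primes, `q` not dividing `(p - 1) / 2`, and let `k` be prime to `p`. Let `M_k(G)` be the
number of irreducible characters of `G` with degree `≡ ± k` modulo `p`. The Isaacs-Navarro conjecture
holds for `p` and all finite groups if and only if `M_k(G) ≡ M_k(N_G(P))` modulo `q` for this
single `k`, for all `G` and `P ∈ Syl_p(G)`.

Proof. By helper84's theorem it suffices to prove all these congruences modulo `q`. Let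
`D_k(G) = M_k(G) - M_k(N_G(P))`, let `m` be prime to `p` and divisible by `q`, let `r = m s + 1` be a
prime with `s ≡ 1` modulo `q`, `r ≠ p` (Dirichlet). The Frobenius group `F` of order `r m` has `m`
linear characters and `s` characters of degree `m`, so
`D_k(G × F) = m D_k(G) + s D_{k/m}(G) ≡ D_{k/m}(G)` modulo `q`. Every class is of the form `k/m`.
-/

set_option autoImplicit false

noncomputable section

namespace Pool.Agent.Results.MP_5ecade_al.OneClassOnePrime

open Pool.Agent.Helper884.IC (IsIrrChar)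
open Pool.Agent.N84.IN (IrrP numCls numCo WQN)
open Pool.Agent.N22.OC

variable {p : ℕ} [hp : Fact p.Prime]

/-- There is a bijection between the irreducible characters of `G` and of `N` of degree prime to `p`
which preserves the degrees modulo `p` up to sign. -/
def HasBij (p : ℕ) (G N : Type) [Group G] [Group N] : Prop :=
  ∃ f : IrrP p G → IrrP p N, Function.Bijective f ∧ Keeps p f

/-- the congruence for the class of `k` -/
def Cong (q p k : ℕ) (G : Type) [Group G] (P : Sylow p G) : Prop :=
  numModCo q p k G ≡ numModCo q p k (Subgroup.normalizer ((P : Subgroup G) : Set G)) [MOD q]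

theorem cong_iff {q k : ℕ} (hk : ¬ p ∣ k) (G : Type) [Group G] [Finite G] (P : Sylow p G) :
    Cong q p k G P ↔ (q : ℤ) ∣ Df p (pm p) (clk p hk) G P := by
  unfold Cong Df
  rw [← numCo_clk hk, ← numCo_clk hk, ← Pool.Agent.N84.IN.numCo_iff]
  exact ⟨fun h => Nat.modEq_iff_dvd.mp h.symm, fun h => (Nat.modEq_iff_dvd.mpr h).symm⟩

theorem all_of_dvd {q : ℕ} [hq : Fact q.Prime] (hqp : q ≠ p) (hB : ¬ q ∣ (pm p).index) {k : ℕ}
    (hk : ¬ p ∣ k) (G : Type) [Group G] [Finite G] (P : Sylow p G)
    (h : ∀ j : ℕ, q ^ j ≤ Nat.card G → ∀ (F : Type) [Group F] [Finite F], ¬ p ∣ Nat.card F →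
      ∀ Q : Sylow p (WQN q j G × F), Cong q p k (WQN q j G × F) Q) :
    HasBij p G (Subgroup.normalizer ((P : Subgroup G) : Set G)) := by
  have h0 : (q : ZMod p) ≠ 0 := by
    rw [Ne, ZMod.natCast_eq_zero_iff]
    exact fun h => hqp ((Nat.prime_dvd_prime_iff_eq hp.out hq.out).mp h).symm
  have h1 : (pm p).index.Coprime q := ((Nat.Prime.coprime_iff_not_dvd hq.out).mpr hB).symm
  refine exists_bij.mpr ((Pool.Agent.N84.IN.criterion_q h0 h1 G P).mpr fun j hj Q a => ?_)
  suffices hs : (q : ℤ) ∣ Df p (pm p) a (WQN q j G) Q from (Nat.modEq_iff_dvd.mpr hs).symm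
  have hW : (q : ℤ) ∣ Df p (pm p) (clk p hk) (WQN q j G) Q := by
    obtain ⟨Q', ⟨e⟩⟩ := exists_sylow_prod (p := p) (H := Unit) (by
      simpa using hp.out.one_lt.ne') Q
    have h2 := (cong_iff hk _ Q').mp (h j hj Unit (by simpa using hp.out.one_lt.ne') Q')
    unfold Df at h2 ⊢
    rw [Pool.Agent.N84.IN.numCls_congr (e.trans MulEquiv.prodUnique),
      Pool.Agent.N84.IN.numCls_congr (MulEquiv.prodUnique : WQN q j G × Unit ≃* WQN q j G)] at h2
    exact h2
  exact dvd_of_one hqp a _ Q hW fun F _ _ Q' hF => (cong_iff hk _ Q').mp (h j hj F hF Q')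

/-- **The Isaacs-Navarro conjecture: one class of degrees modulo one prime decides.** Let `p` and
`q ≠ p` be primes, `q` not dividing `(p - 1) / 2`, and let `k` be prime to `p`. Let `M_k(G)` be the
number of irreducible characters of `G` of degree `≡ ± k` modulo `p` whose number of Galois conjugates
is not divisible by `q` (modulo `q` this is the number of all irreducible characters of degree `≡ ± k`).
The Isaacs-Navarro conjecture holds for `p` and all finite groups if and only if
`M_k(G) ≡ M_k(N_G(P))` modulo `q` for all finite `G` and `P ∈ Syl_p(G)`. For each finite group `G` and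
each `P` it holds for `(G, P)` if and only if these congruences, for this single `k`, hold for the
groups `W × F`, where `W` is an iterated wreath product `G ≀ C_q ≀ ⋯ ≀ C_q` with `j` factors `C_q`,
`q^j ≤ |G|`, and `F` is a finite group of order prime to `p`. -/
theorem result (p q k : ℕ) [Fact p.Prime] [Fact q.Prime] (hqp : q ≠ p) (hq : ¬ q ∣ (p - 1) / 2)
    (hk : ¬ p ∣ k) :
    ((∀ (G : Type) [Group G] [Finite G] (P : Sylow p G),
        HasBij p G (Subgroup.normalizer ((P : Subgroup G) : Set G))) ↔
      ∀ (G : Type) [Group G] [Finite G] (P : Sylow p G), Cong q p k G P) ∧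
    (∀ (G : Type) [Group G] [Finite G] (P : Sylow p G),
      (HasBij p G (Subgroup.normalizer ((P : Subgroup G) : Set G)) ↔
        ∀ j : ℕ, q ^ j ≤ Nat.card G → ∀ (F : Type) [Group F] [Finite F], ¬ p ∣ Nat.card F →
          ∀ Q : Sylow p (WQN q j G × F), Cong q p k (WQN q j G × F) Q)) ∧
    ∀ (G : Type) [Group G] [Finite G],
      numMod p k G ≡ numModCo q p k G [MOD q] := by
  have hB : ¬ q ∣ (pm p).index := by
    rcases index_pm p with h1 | h1
    · rwa [h1]
    · subst h1
      exact absurd (by norm_num) hq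
  have h0 : (q : ZMod p) ≠ 0 := by
    rw [Ne, ZMod.natCast_eq_zero_iff]
    exact fun h => hqp ((Nat.prime_dvd_prime_iff_eq (Fact.out : p.Prime) (Fact.out : q.Prime)).mp
      h).symm
  have hc : (pm p).index.Coprime q := ((Nat.Prime.coprime_iff_not_dvd Fact.out).mpr hB).symm
  refine ⟨⟨fun h G _ _ P => ?_, fun h G _ _ P => ?_⟩, fun G _ _ P => ⟨fun h => ?_, fun h => ?_⟩,
    fun G _ _ => ?_⟩
  · rw [cong_iff hk]
    unfold Df
    rw [exists_bij.mp (h G P), sub_self]
    exact dvd_zero _
  · exact all_of_dvd hqp hB hk G P fun j _ F _ _ _ Q => h (WQN q j G × F) Q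
  · intro j _ F _ _ hF Q
    rw [cong_iff hk]
    obtain ⟨P'⟩ : Nonempty (Sylow p (WQN q j G)) := inferInstance
    have h1 := Pool.Agent.N84.IN.eq_levels_q h0 hc j G P (exists_bij.mp h) P'
    obtain ⟨Q', ⟨e⟩⟩ := exists_sylow_prod hF P'
    obtain ⟨e2⟩ := Pool.Agent.Q90.WR.norm_equiv Q Q'
    unfold Df
    rw [Pool.Agent.N84.IN.numCls_congr (e2.trans e), numCls_prod_eq h1, sub_self]
    exact dvd_zero _
  · exact all_of_dvd hqp hB hk G P h
  · rw [← numCls_clk hk, ← numCo_clk hk]
    exact Pool.Agent.N84.IN.numCo_mod q _ G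

end Pool.Agent.Results.MP_5ecade_al.OneClassOnePrime
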