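import Pool.Agent.N84.IN.Bij

/-!
# McKay bijections with degrees congruent up to sign modulo `p`: congruences modulo one prime decide

Let `p` be a prime, `B` a subgroup of `(ℤ/p)ˣ` and `q ≠ p` a prime which does not divide the index of
`B` (for `B = {±1}`: a prime `q` which does not divide `p (p - 1) / 2`). For a finite group `G` and
`a ∈ (ℤ/p)ˣ / B` let `M_a(G)` be the number of irreducible characters of `G` whose degree is prime to
`p` and has the class `a`.

Proof. Let `X = ∑ M_a(G) a` in the group ring of `A = (ℤ/p)ˣ / B`, let `ψ` be the `q`-th power map of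
`A` and let `t` be the class of `q`. By Clifford theory the corresponding element for `G ≀ C_q` is
`X' = t (X^q - ψ(X)) / q + q ψ(X)`. If `P ∈ Syl_p(G)`, then `P^q ∈ Syl_p(G ≀ C_q)` and its normalizer is
`N_G(P) ≀ C_q`; let `Y`, `Y'` be the elements for `N_G(P)` and `N_G(P) ≀ C_q`. If `q^(J+1)` divides
`X - Y` and `X' - Y'`, then `q^(J+2)` divides `X^q - Y^q`, hence `ψ(X - Y)`, hence `X - Y`, since `ψ` is
bijective on `A`. So `X = Y`, if the congruences modulo `q` hold for `G` and sufficiently many iterated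
wreath products. Modulo `q` the characters whose number of Galois conjugates is divisible by `q` may be
left out.
-/

set_option autoImplicit false

noncomputable section

namespace Pool.Agent.Results.MP_5ecade_al.OnePrimeDecides

open Pool.Agent.Helper884.IC (IsIrrChar)
open Pool.Agent.N84.IN (IrrP BijMod HasCls numCo WQN)
open Pool.Agent.N19.RB (numCh)

/-- The Isaacs-Navarro property for `G` and `N = N_G(P)`: there is a bijection `χ ↦ χ*` between the
irreducible characters of `G` of degree prime to `p` and those of `N` such that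
`χ(1) ≡ ± χ*(1)` modulo `p` for all `χ`. -/
def IsaacsNavarro (p : ℕ) (G N : Type) [Group G] [Group N] : Prop :=
  ∃ f : IrrP p G ≃ IrrP p N, ∀ χ : IrrP p G, ∃ m n : ℕ, χ.1 1 = m ∧ (f χ).1 1 = n ∧
    ((m : ZMod p) = n ∨ (m : ZMod p) = -n)

/-- The number of irreducible characters of `G` whose degree is congruent to `± k` modulo `p` and
whose number of Galois conjugates is not divisible by `q`. -/
def Mco (q p k : ℕ) (G : Type) [Group G] : ℕ :=
  Nat.card {χ : G → ℂ // (IsIrrChar χ ∧
    ∃ n : ℕ, χ 1 = n ∧ ((n : ZMod p) = k ∨ (n : ZMod p) = -k)) ∧ ¬ q ∣ numCh χ}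

section pm

variable (p : ℕ) [hp : Fact p.Prime]

/-- the subgroup `{±1}` -/
def pm : Subgroup (ZMod p)ˣ where
  carrier := {u | u = 1 ∨ u = -1}
  one_mem' := Or.inl rfl
  mul_mem' := by
    rintro u v (rfl | rfl) (rfl | rfl) <;> simp
  inv_mem' := by
    rintro u (rfl | rfl) <;> simp

theorem mem_pm {u : (ZMod p)ˣ} : u ∈ pm p ↔ u = 1 ∨ u = -1 := Iff.rfl

theorem index_pm : (pm p).index = (p - 1) / 2 ∨ p = 2 := by
  by_cases h2 : p = 2
  · exact Or.inr h2
  left
  have h3 : Fact (2 < p) := ⟨lt_of_le_of_ne hp.out.two_le (Ne.symm h2)⟩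
  have hne : (1 : (ZMod p)ˣ) ≠ -1 := by
    intro h
    have h4 := congrArg (fun u : (ZMod p)ˣ => (u : ZMod p)) h
    simp only [Units.val_one, Units.val_neg] at h4
    exact ZMod.neg_one_ne_one h4.symm
  have hc : Nat.card (pm p) = 2 := by
    change Nat.card ({u | u = 1 ∨ u = -1} : Set (ZMod p)ˣ) = 2
    rw [show ({u | u = 1 ∨ u = -1} : Set (ZMod p)ˣ) = {1, -1} from rfl, Nat.card_coe_set_eq,
      Set.ncard_pair hne]
  have h5 := (pm p).card_mul_index
  rw [hc, Nat.card_eq_fintype_card, ZMod.card_units] at h5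
  omega

end pm

variable {p : ℕ} [hp : Fact p.Prime]

theorem hasCls_pm {G : Type} [Group G] {χ : G → ℂ} {u : (ZMod p)ˣ} {k : ℕ} (hk : (k : ZMod p) = u) :
    HasCls p (pm p) (u : (ZMod p)ˣ ⧸ pm p) χ ↔
      ∃ n : ℕ, χ 1 = n ∧ ((n : ZMod p) = k ∨ (n : ZMod p) = -k) := by
  rw [hk]
  constructor
  · rintro ⟨n, v, h1, h2, h3⟩
    refine ⟨n, h1, ?_⟩
    rw [QuotientGroup.eq, mem_pm] at h3
    rw [h2]
    rcases h3 with h3 | h3
    · left
      rw [inv_mul_eq_one.mp h3]
    · right
      rw [inv_mul_eq_iff_eq_mul] at h3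
      rw [h3]
      simp
  · rintro ⟨n, h1, h2 | h2⟩
    · exact ⟨n, u, h1, h2, rfl⟩
    · refine ⟨n, -u, h1, by rw [h2]; simp, ?_⟩
      rw [QuotientGroup.eq, mem_pm]
      right
      simp

theorem numCo_pm {q : ℕ} {G : Type} [Group G] {u : (ZMod p)ˣ} {k : ℕ} (hk : (k : ZMod p) = u) :
    numCo q p (pm p) (u : (ZMod p)ˣ ⧸ pm p) G = Mco q p k G :=
  Nat.card_congr (Equiv.subtypeEquivRight fun _ =>
    and_congr_left fun _ => and_congr_right fun _ => hasCls_pm hk)

theorem all_pm {q : ℕ} {G N : Type} [Group G] [Group N] :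
    (∀ a, numCo q p (pm p) a G ≡ numCo q p (pm p) a N [MOD q]) ↔
      ∀ k : ℕ, ¬ p ∣ k → Mco q p k G ≡ Mco q p k N [MOD q] := by
  constructor
  · intro h k hk
    have hk0 : (k : ZMod p) ≠ 0 := by rwa [Ne, ZMod.natCast_eq_zero_iff]
    have h1 := h ((Units.mk0 (k : ZMod p) hk0 : (ZMod p)ˣ) : (ZMod p)ˣ ⧸ pm p)
    rwa [numCo_pm (k := k) rfl, numCo_pm (k := k) rfl] at h1
  · intro h a
    induction a using QuotientGroup.induction_on with
    | H u =>
      have hk : (((u : ZMod p).val : ℕ) : ZMod p) = u := ZMod.natCast_zmod_val _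
      rw [numCo_pm hk, numCo_pm hk]
      apply h
      rw [← ZMod.natCast_eq_zero_iff, hk]
      exact u.ne_zero

theorem bij_pm {G N : Type} [Group G] [Group N] :
    IsaacsNavarro p G N ↔ BijMod p (pm p) G N := by
  constructor
  · rintro ⟨f, hf⟩
    refine ⟨f, fun χ m n hm hn => ?_⟩
    obtain ⟨m', n', h1, h2, h3⟩ := hf χ
    have e1 : m' = m := by exact_mod_cast h1.symm.trans hm
    have e2 : n' = n := by exact_mod_cast h2.symm.trans hn
    subst e1 e2
    rcases h3 with h3 | h3
    · exact ⟨1, Or.inl rfl, by rw [h3]; simp⟩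
    · exact ⟨-1, Or.inr rfl, by rw [h3]; simp⟩
  · rintro ⟨f, hf⟩
    refine ⟨f, fun χ => ?_⟩
    obtain ⟨m, h1, -⟩ := χ.2.2
    obtain ⟨n, h2, -⟩ := (f χ).2.2
    obtain ⟨b, hb, h3⟩ := hf χ m n h1.symm h2.symm
    refine ⟨m, n, h1.symm, h2.symm, ?_⟩
    rcases hb with rfl | rfl
    · left
      rw [h3]; simp
    · right
      rw [h3]; simp

/-- the general criterion for a group -/
theorem single {q : ℕ} [hq : Fact q.Prime] (hqp : q ≠ p) {B : Subgroup (ZMod p)ˣ}
    (hB : ¬ q ∣ B.index) (G : Type) [Group G] [Finite G] (P : Sylow p G) :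
    BijMod p B G (Subgroup.normalizer ((P : Subgroup G) : Set G)) ↔
      ∀ j : ℕ, q ^ j ≤ Nat.card G → ∀ Q : Sylow p (WQN q j G), ∀ a,
        numCo q p B a (WQN q j G) ≡ numCo q p B a
          (Subgroup.normalizer ((Q : Subgroup (WQN q j G)) : Set (WQN q j G))) [MOD q] := by
  have h0 : (q : ZMod p) ≠ 0 := by
    rw [Ne, ZMod.natCast_eq_zero_iff]
    exact fun h => hqp ((Nat.prime_dvd_prime_iff_eq hp.out hq.out).mp h).symm
  have h1 : B.index.Coprime q := ((Nat.Prime.coprime_iff_not_dvd hq.out).mpr hB).symm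
  rw [Pool.Agent.N84.IN.bijMod_iff, Pool.Agent.N84.IN.criterion_q h0 h1]
  simp only [Pool.Agent.N84.IN.numCo_iff]

/-- the general criterion -/
theorem glob {q : ℕ} [hq : Fact q.Prime] (hqp : q ≠ p) {B : Subgroup (ZMod p)ˣ}
    (hB : ¬ q ∣ B.index) :
    (∀ (G : Type) [Group G] [Finite G] (P : Sylow p G),
      BijMod p B G (Subgroup.normalizer ((P : Subgroup G) : Set G))) ↔
    ∀ (G : Type) [Group G] [Finite G] (P : Sylow p G), ∀ a, numCo q p B a G ≡
      numCo q p B a (Subgroup.normalizer ((P : Subgroup G) : Set G)) [MOD q] := by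
  constructor
  · intro h G _ _ P a
    exact (single hqp hB G P).mp (h G P) 0 (by rw [pow_zero]; exact Nat.card_pos) P a
  · intro h G _ _ P
    exact (single hqp hB G P).mpr fun j _ Q => h (WQN q j G) Q

/-- **The Isaacs-Navarro conjecture: congruences modulo one prime decide.** Let `p` and `q ≠ p` be
primes. (1) Suppose that `q` does not divide `(p - 1) / 2`. The Isaacs-Navarro conjecture holds for
the prime `p` (for all finite groups `G` and all `P ∈ Syl_p(G)` there is a bijection `χ ↦ χ*` between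
the irreducible characters of `G` and `N_G(P)` of degree prime to `p` with `χ(1) ≡ ± χ*(1)` modulo `p`)
if and only if for all finite `G`, all `P ∈ Syl_p(G)` and all `k` prime to `p` the numbers of
irreducible characters of `G` and of `N_G(P)` with degree `≡ ± k` modulo `p` and with a number of
Galois conjugates not divisible by `q` are congruent modulo `q`. For each finite group `G` and each
`P ∈ Syl_p(G)` the conjecture holds for `(G, P)` if and only if these congruences hold for the iterated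
wreath products `G ≀ C_q ≀ ⋯ ≀ C_q` with `j` factors `C_q`, `q^j ≤ |G|`.
(2) More generally, the same holds if the sign is replaced by an element of a subgroup `B` of
`(ℤ/p)ˣ` whose index is not divisible by `q`, and the degrees up to sign by the classes of the degrees
in `(ℤ/p)ˣ / B`. -/
theorem result (p q : ℕ) [Fact p.Prime] [Fact q.Prime] (hqp : q ≠ p) :
    (¬ q ∣ (p - 1) / 2 →
      ((∀ (G : Type) [Group G] [Finite G] (P : Sylow p G),
          IsaacsNavarro p G (Subgroup.normalizer ((P : Subgroup G) : Set G))) ↔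
        ∀ (G : Type) [Group G] [Finite G] (P : Sylow p G), ∀ k : ℕ, ¬ p ∣ k →
          Mco q p k G ≡ Mco q p k (Subgroup.normalizer ((P : Subgroup G) : Set G)) [MOD q]) ∧
      ∀ (G : Type) [Group G] [Finite G] (P : Sylow p G),
        (IsaacsNavarro p G (Subgroup.normalizer ((P : Subgroup G) : Set G)) ↔
          ∀ j : ℕ, q ^ j ≤ Nat.card G → ∀ Q : Sylow p (WQN q j G), ∀ k : ℕ, ¬ p ∣ k →
            Mco q p k (WQN q j G) ≡ Mco q p k
              (Subgroup.normalizer ((Q : Subgroup (WQN q j G)) : Set (WQN q j G))) [MOD q])) ∧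
    ∀ B : Subgroup (ZMod p)ˣ, ¬ q ∣ B.index →
      ((∀ (G : Type) [Group G] [Finite G] (P : Sylow p G),
          BijMod p B G (Subgroup.normalizer ((P : Subgroup G) : Set G))) ↔
        ∀ (G : Type) [Group G] [Finite G] (P : Sylow p G), ∀ a, numCo q p B a G ≡
          numCo q p B a (Subgroup.normalizer ((P : Subgroup G) : Set G)) [MOD q]) ∧
      ∀ (G : Type) [Group G] [Finite G] (P : Sylow p G),
        (BijMod p B G (Subgroup.normalizer ((P : Subgroup G) : Set G)) ↔
          ∀ j : ℕ, q ^ j ≤ Nat.card G → ∀ Q : Sylow p (WQN q j G), ∀ a,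
            numCo q p B a (WQN q j G) ≡ numCo q p B a
              (Subgroup.normalizer ((Q : Subgroup (WQN q j G)) : Set (WQN q j G))) [MOD q]) := by
  refine ⟨fun h => ?_, fun B hB => ⟨glob hqp hB, single hqp hB⟩⟩
  have hB : ¬ q ∣ (pm p).index := by
    rcases index_pm p with h1 | h1
    · rwa [h1]
    · subst h1
      exact absurd (by norm_num) h
  simp only [bij_pm, ← all_pm]
  exact ⟨glob hqp hB, single hqp hB⟩

end Pool.Agent.Results.MP_5ecade_al.OnePrimeDecides
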